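import Pool.Agent.Helper44.TOT.Defs

/-!
# TOT-O4: the one-step proposition `OS`
-/

set_option autoImplicit false

namespace Pool.Agent.Helper39.TOT

open Pool.Agent.Helper44.TOT

lemma exists_ll_ge (s0 : ℝ) : ∃ X0 : ℕ, ∀ x : ℕ, X0 ≤ x → s0 ≤ ll x := by
  refine ⟨⌈Real.exp (Real.exp s0)⌉₊, fun x hx => ?_⟩
  have h1 : Real.exp (Real.exp s0) ≤ x := (Nat.le_ceil _).trans (by exact_mod_cast hx)
  have h2 : Real.exp s0 ≤ Real.log x := by
    have := Real.log_le_log (Real.exp_pos _) h1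
    rwa [Real.log_exp] at this
  have h3 := Real.log_le_log (Real.exp_pos _) h2
  rwa [Real.log_exp] at h3

lemma exp_ge_pow (K : ℝ) (B : ℕ) : ∃ s0 : ℝ, ∀ s : ℝ, s0 ≤ s → K * s ^ B ≤ Real.exp s := by
  have h1 := (Real.tendsto_exp_div_pow_atTop B).eventually_ge_atTop K
  obtain ⟨s0, hs0⟩ := Filter.eventually_atTop.mp h1
  refine ⟨max s0 1, fun s hs => ?_⟩
  have h2 := hs0 s ((le_max_left _ _).trans hs)
  have h3 : 0 < s := lt_of_lt_of_le one_pos ((le_max_right _ _).trans hs)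
  rwa [le_div_iff₀ (pow_pos h3 B)] at h2

lemma cp_prime : ∀ (σ : List ℕ) (n : ℕ), CP σ n → n.Prime
  | [], _, h => h
  | _ :: σ, n, h => cp_prime σ n h.2

lemma le_up : ∀ (σ : List ℕ) (n : ℕ), (∀ m ∈ σ, 1 ≤ m) → n ≤ up σ n
  | [], _, _ => le_rfl
  | m :: σ, n, h => by
    have h1 := le_up σ n fun k hk => h k (List.mem_cons_of_mem _ hk)
    have h2 := h m List.mem_cons_self
    change n ≤ m * up σ n + 1
    nlinarith

/-- the common hypotheses of the type lemmas -/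
lemma th_of {x A A' Ab A1 C M1 a : ℕ} {N : Finset ℕ} {X D C0 ρ ι C6 uB u1 Λ G1 Z z δ : ℝ}
    {G b : ℕ → ℝ} (hcst : Cst a C0 ρ ι) (hAb : Ab = a * A + 3) (hA' : A ≤ A') (hAbA' : Ab ≤ A')
    (hA1 : A1 ≤ A')
    (hGH : GH x a C0 ρ ι C6 G b Λ G1 uB u1 Z δ) (hx : 0 < (x : ℝ)) (hs4 : 4 ≤ ll x)
    (hsa : (a : ℝ) + 1 ≤ ll x) (hsa2 : 100 * (a : ℝ) * 4 ^ a ≤ ll x)
    (hlog : Real.log x = Real.exp (ll x)) (hexp : 100 * (ll x) ^ (A + A1 + 1) ≤ Real.exp (ll x))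
    (hZ : Z ≤ (ll x) ^ A) (huB : 1 / (ll x) ^ A ≤ uB) (hz : 1 ≤ z) (hzZ : z ≤ Z)
    (hM1 : M1 = ⌈Real.exp ((ll x) ^ A1)⌉₊)
    (hadm : Adm x Ab C M1 N X D) (hD : 0 ≤ D) (hX : X ≤ x)
    (hX' : (x : ℝ) * Real.exp (-(ll x) ^ A') ≤ X) :
    TH x Ab A' C M1 N X D a C0 ρ ι uB b z δ := by
  set s := ll x with hs
  have hs1 : (1 : ℝ) ≤ s := by linarith
  have hs0 : (0 : ℝ) < s := by linarith
  have ha : (0 : ℝ) < a := by have := hcst.ha; positivity
  have hpow : ∀ {i j : ℕ}, i ≤ j → s ^ i ≤ s ^ j := fun h => pow_le_pow_right₀ hs1 h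
  have hZ0 : 0 < Z := by linarith
  have hZa : Z ^ a ≤ s ^ (a * A) := by
    calc Z ^ a ≤ (s ^ A) ^ a := pow_le_pow_left₀ hZ0.le hZ a
      _ = s ^ (a * A) := by rw [← pow_mul, mul_comm]
  have hza : z ^ a ≤ Z ^ a := pow_le_pow_left₀ (by linarith) hzZ a
  have hz0 : 0 ≤ z ^ a := by positivity
  have hzA : ((a : ℝ) + 1) * z ^ a ≤ s ^ Ab := by
    calc ((a : ℝ) + 1) * z ^ a ≤ s * s ^ (a * A) :=
          mul_le_mul hsa (hza.trans hZa) hz0 hs0.le
      _ = s ^ (a * A + 1) := by rw [pow_succ]; ring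
      _ ≤ s ^ Ab := hpow (by omega)
  have hden : 0 < 100 * (a : ℝ) * (4 * Z) ^ a := by positivity
  have hM1ge : Real.exp (s ^ A1) ≤ M1 := by rw [hM1]; exact Nat.le_ceil _
  have hM1lt : (M1 : ℝ) < Real.exp (s ^ A1) + 1 := by
    rw [hM1]; exact Nat.ceil_lt_add_one (Real.exp_pos _).le
  refine ⟨hadm, hD, hX, hX', ?_, hGH.uBu1.trans hGH.u1', hGH.tail, hz, hzA,
    hzA.trans (hpow hAbA'), ?_, ?_, ?_, ?_, ?_, ?_⟩
  · refine le_trans ?_ huB
    exact one_div_le_one_div_of_le (by positivity) (hpow hA')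
  · rw [hGH.hδ]; positivity
  · rw [hGH.hδ]
    refine one_div_le_one_div_of_le (by positivity) ?_
    have : (4 * z) ^ a ≤ (4 * Z) ^ a := pow_le_pow_left₀ (by linarith) (by linarith) a
    exact mul_le_mul_of_nonneg_left this (by positivity)
  · rw [hGH.hδ]
    refine one_div_le_one_div_of_le hden ?_
    calc 100 * (a : ℝ) * (4 * Z) ^ a = (100 * (a : ℝ) * 4 ^ a) * Z ^ a := by rw [mul_pow]; ring
      _ ≤ s * s ^ (a * A) := mul_le_mul hsa2 hZa (by positivity) hs0.le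
      _ = s ^ (a * A + 1) := by rw [pow_succ]; ring
      _ ≤ s ^ A' := hpow (by omega)
  · refine le_trans (Real.exp_le_exp.mpr ?_) hM1ge
    exact one_le_pow₀ hs1
  · refine hM1lt.le.trans ?_
    have := Real.exp_le_exp.mpr (hpow hA1)
    linarith
  · -- M1 ≤ x ^ uB
    rw [Real.rpow_def_of_pos hx, hlog]
    have h1 : s ^ A1 + 1 ≤ Real.exp s * uB := by
      have h2 : s ^ A1 + 1 ≤ s ^ (A1 + 1) := by
        have h3 : 1 ≤ s ^ A1 := one_le_pow₀ hs1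
        rw [pow_succ]
        nlinarith
      have h4 : s ^ (A1 + 1) * s ^ A ≤ Real.exp s := by
        have h5 : s ^ (A1 + 1) * s ^ A = s ^ (A + A1 + 1) := by rw [← pow_add]; congr 1; omega
        rw [h5]
        have h6 : 0 ≤ s ^ (A + A1 + 1) := by positivity
        linarith
      have h7 : s ^ (A1 + 1) ≤ Real.exp s * (1 / s ^ A) := by
        rw [mul_one_div, le_div_iff₀ (by positivity)]
        exact h4
      exact h2.trans (h7.trans (mul_le_mul_of_nonneg_left huB (Real.exp_pos _).le))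
    have h8 : Real.exp (s ^ A1) + 1 ≤ Real.exp (s ^ A1 + 1) := by
      rw [Real.exp_add]
      have h9 : 1 ≤ Real.exp (s ^ A1) := Real.one_le_exp (by positivity)
      have h10 : 2 ≤ Real.exp 1 := by linarith [Real.exp_one_gt_d9]
      nlinarith
    exact hM1lt.le.trans (h8.trans (Real.exp_le_exp.mpr h1))


/-- bound for the product of a chain -/
lemma prod_le (hSum : ChainSum) {M1 r A1 A3 : ℕ} {s : ℝ} (hs4 : 4 ≤ s)
    (hM1 : (M1 : ℝ) ≤ Real.exp (s ^ A1) + 1) (hr : (r : ℝ) ≤ s ^ A3 + 1) {σ : List ℕ}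
    (hσ : σ ∈ chains M1 r) : (σ.prod : ℝ) ≤ Real.exp (s ^ (A1 + A3 + 1)) := by
  have hs1 : (1 : ℝ) ≤ s := by linarith
  have hs0 : (0 : ℝ) < s := by linarith
  have h1 := ((hSum M1 r).2 σ hσ).2.2.2
  have h2 : (σ.prod : ℝ) ≤ (M1 : ℝ) ^ r := by exact_mod_cast h1
  have h3 : 1 ≤ s ^ A1 := one_le_pow₀ hs1
  have h4 : 1 ≤ s ^ A3 := one_le_pow₀ hs1
  have h5 : (M1 : ℝ) ≤ Real.exp (s ^ A1 + 1) := by
    rw [Real.exp_add]
    have h9 : 1 ≤ Real.exp (s ^ A1) := Real.one_le_exp (by positivity)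
    have h10 : 2 ≤ Real.exp 1 := by linarith [Real.exp_one_gt_d9]
    nlinarith
  calc (σ.prod : ℝ) ≤ (M1 : ℝ) ^ r := h2
    _ ≤ (Real.exp (s ^ A1 + 1)) ^ r := pow_le_pow_left₀ (by positivity) h5 r
    _ = Real.exp (r * (s ^ A1 + 1)) := by rw [← Real.exp_nat_mul]
    _ ≤ Real.exp (s ^ (A1 + A3 + 1)) := by
        refine Real.exp_le_exp.mpr ?_
        have h6 : (r : ℝ) * (s ^ A1 + 1) ≤ (s ^ A3 + 1) * (s ^ A1 + 1) :=
          mul_le_mul_of_nonneg_right hr (by positivity)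
        have h7 : s ^ (A1 + A3 + 1) = s ^ A1 * s ^ A3 * s := by rw [pow_succ, pow_add]
        have h8 : 1 ≤ s ^ A1 * s ^ A3 := one_le_mul_of_one_le_of_one_le h3 h4
        have h9 : s ^ A1 * s ^ A3 * 4 ≤ s ^ A1 * s ^ A3 * s :=
          mul_le_mul_of_nonneg_left hs4 (by positivity)
        have h10 : s ^ A1 ≤ s ^ A1 * s ^ A3 := le_mul_of_one_le_right (by positivity) h4
        have h11 : s ^ A3 ≤ s ^ A1 * s ^ A3 := le_mul_of_one_le_left (by positivity) h3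
        nlinarith

/-- harmonic sum -/
lemma harm_le {M1 A1 : ℕ} {s : ℝ} (hs4 : 4 ≤ s) (hM1pos : 1 ≤ M1)
    (hM1 : (M1 : ℝ) ≤ Real.exp (s ^ A1) + 1) :
    ∑ m ∈ Finset.Icc 1 M1, (1 : ℝ) / m ≤ s ^ (A1 + 1) := by
  have hs1 : (1 : ℝ) ≤ s := by linarith
  have h0 : ∑ m ∈ Finset.Icc 1 M1, (1 : ℝ) / m = (harmonic M1 : ℝ) := by
    rw [harmonic_eq_sum_Icc]
    push_cast
    exact Finset.sum_congr rfl fun m _ => one_div _
  have h1 := harmonic_le_one_add_log M1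
  have h3 : 1 ≤ s ^ A1 := one_le_pow₀ hs1
  have h5 : (M1 : ℝ) ≤ Real.exp (s ^ A1 + 1) := by
    rw [Real.exp_add]
    have h9 : 1 ≤ Real.exp (s ^ A1) := Real.one_le_exp (by positivity)
    have h10 : 2 ≤ Real.exp 1 := by linarith [Real.exp_one_gt_d9]
    nlinarith
  have h6 : Real.log M1 ≤ s ^ A1 + 1 := by
    have := Real.log_le_log (by exact_mod_cast hM1pos) h5
    rwa [Real.log_exp] at this
  rw [h0]
  rw [pow_succ]
  nlinarith

lemma delta_ge {a A : ℕ} {s Z δ : ℝ} (ha : 2 ≤ a) (hs4 : 4 ≤ s)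
    (hsa2 : 100 * (a : ℝ) * 4 ^ a ≤ s) (hZ1 : 1 ≤ Z) (hZ : Z ≤ s ^ A)
    (hδ : δ = 1 / (100 * a * (4 * Z) ^ a)) : 1 / s ^ (a * A + 1) ≤ δ := by
  have hs0 : (0 : ℝ) < s := by linarith
  have hZ0 : 0 < Z := by linarith
  have ha' : (0 : ℝ) < a := by positivity
  have hZa : Z ^ a ≤ s ^ (a * A) := by
    calc Z ^ a ≤ (s ^ A) ^ a := pow_le_pow_left₀ hZ0.le hZ a
      _ = s ^ (a * A) := by rw [← pow_mul, mul_comm]
  rw [hδ]
  refine one_div_le_one_div_of_le (by positivity) ?_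
  calc 100 * (a : ℝ) * (4 * Z) ^ a = (100 * (a : ℝ) * 4 ^ a) * Z ^ a := by rw [mul_pow]; ring
    _ ≤ s * s ^ (a * A) := mul_le_mul hsa2 hZa (by positivity) hs0.le
    _ = s ^ (a * A + 1) := by rw [pow_succ]; ring

/-- the level at the bottom of a chain of special steps -/
lemma G_bottom (hG : ChainG) {G : ℕ → ℝ} {Λ s δ z : ℝ} {σ : List ℕ} {x n A B1 k : ℕ}
    (havg : Avg G) (hle : ∀ q : ℕ, q.Prime → G q ≤ Λ) (hΛ : 1 ≤ Λ) (hΛA : Λ ≤ s ^ A)
    (hσ : ∀ m ∈ σ, 1 ≤ m) (hσ0 : 1 ≤ σ.prod) (hσB : (σ.prod : ℝ) ≤ Real.exp (s ^ B1))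
    (hs4 : 4 ≤ s) (hx : 0 < (x : ℝ)) (hlog : Real.log x = Real.exp s)
    (hδ : 1 / s ^ k ≤ δ) (hexp : 100 * s ^ (A + B1 + k) ≤ Real.exp s)
    (hrng : (x : ℝ) / σ.prod / 4 < n) (hCP : CP σ (n + 1)) (hz : 1 ≤ z)
    (hzG : z ≤ G (up σ (n + 1))) : z - δ / 8 ≤ G (n + 1) := by
  have hs1 : (1 : ℝ) ≤ s := by linarith
  have hs0 : (0 : ℝ) < s := by linarith
  set L := Real.exp s with hL
  have hpow : ∀ {i j : ℕ}, i ≤ j → s ^ i ≤ s ^ j := fun h => pow_le_pow_right₀ hs1 h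
  have hc0 : (0 : ℝ) < σ.prod := by exact_mod_cast hσ0
  have hlc : Real.log σ.prod ≤ s ^ B1 := by
    have := Real.log_le_log hc0 hσB
    rwa [Real.log_exp] at this
  have hlc0 : 0 ≤ Real.log σ.prod := Real.log_nonneg (by exact_mod_cast hσ0)
  -- size of the bottom
  have h1 : L / 2 ≤ Real.log ((n + 1 : ℕ) : ℝ) := by
    have h2 : Real.log ((x : ℝ) / σ.prod / 4) ≤ Real.log ((n + 1 : ℕ) : ℝ) :=
      Real.log_le_log (by positivity) (by rw [Nat.cast_add, Nat.cast_one]; linarith)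
    rw [Real.log_div (by positivity) (by norm_num), Real.log_div hx.ne' hc0.ne', hlog] at h2
    have h3 : Real.log 4 ≤ 2 := by
      have := Real.log_le_sub_one_of_pos (show (0 : ℝ) < 2 by norm_num)
      have h4 : Real.log 4 = 2 * Real.log 2 := by
        rw [show (4 : ℝ) = 2 ^ 2 by norm_num, Real.log_pow]; norm_num
      rw [h4]; linarith
    have h5 : 1 ≤ s ^ B1 := one_le_pow₀ hs1
    have h6 : s ^ B1 ≤ s ^ (A + B1 + k) := hpow (by omega)
    linarith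
  have hL4 : 4 ≤ L := by
    have := Real.add_one_le_exp s
    linarith
  have h5 : 5 ≤ n + 1 := by
    have h2 : Real.exp 2 ≤ ((n + 1 : ℕ) : ℝ) := by
      have h3 : (2 : ℝ) ≤ Real.log ((n + 1 : ℕ) : ℝ) := by linarith
      have := Real.exp_le_exp.mpr h3
      rwa [Real.exp_log (by positivity)] at this
    have h3 : (4 : ℝ) < Real.exp 2 := by
      have h4 : Real.exp 2 = Real.exp 1 * Real.exp 1 := by rw [← Real.exp_add]; norm_num
      have h5 := Real.exp_one_gt_d9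
      rw [h4]; nlinarith
    have h4 : (4 : ℝ) < ((n + 1 : ℕ) : ℝ) := lt_of_lt_of_le h3 h2
    have h5 : 4 < n + 1 := by exact_mod_cast h4
    omega
  have h6 := hG G Λ σ (n + 1) havg hle (by linarith) hσ h5 hCP
  have h7 : ((n + 1 : ℕ) : ℝ) ≤ ((up σ (n + 1) : ℕ) : ℝ) := by exact_mod_cast le_up σ (n + 1) hσ
  have h8 : Real.log ((n + 1 : ℕ) : ℝ) ≤ Real.log ((up σ (n + 1) : ℕ) : ℝ) :=
    Real.log_le_log (by positivity) h7
  have h9 : 0 < Real.log ((n + 1 : ℕ) : ℝ) := by linarith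
  have h10 : z * Real.log ((n + 1 : ℕ) : ℝ) ≤
      G (up σ (n + 1)) * Real.log ((up σ (n + 1) : ℕ) : ℝ) :=
    mul_le_mul hzG h8 h9.le (by linarith)
  have h11 : Λ * Real.log σ.prod ≤ s ^ A * s ^ B1 := mul_le_mul hΛA hlc hlc0 (by positivity)
  by_contra hcon
  push Not at hcon
  have h12 : (δ / 8) * (L / 2) ≤ (z - G (n + 1)) * Real.log ((n + 1 : ℕ) : ℝ) := by
    refine mul_le_mul (by linarith) h1 (by positivity) ?_
    have : 0 < 1 / s ^ k := by positivity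
    linarith
  have h13 : (δ / 8) * (L / 2) ≤ s ^ A * s ^ B1 := by
    have : (z - G (n + 1)) * Real.log ((n + 1 : ℕ) : ℝ) =
      z * Real.log ((n + 1 : ℕ) : ℝ) - G (n + 1) * Real.log ((n + 1 : ℕ) : ℝ) := by ring
    linarith
  have h14 : (1 / s ^ k / 8) * (L / 2) ≤ s ^ A * s ^ B1 :=
    le_trans (mul_le_mul_of_nonneg_right (by linarith) (by positivity)) h13
  have h15 : L ≤ 16 * s ^ (A + B1 + k) := by
    have h16 : (1 / s ^ k / 8) * (L / 2) = L / (16 * s ^ k) := by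
      field_simp
      norm_num
    rw [h16, div_le_iff₀ (by positivity)] at h14
    calc L ≤ s ^ A * s ^ B1 * (16 * s ^ k) := h14
      _ = 16 * s ^ (A + B1 + k) := by rw [pow_add, pow_add]; ring
  have h17 : 0 < s ^ (A + B1 + k) := by positivity
  linarith

/-- lower bound for the target -/
lemma target_ge {C0 s w : ℝ} (hC0 : 1 ≤ C0) {v : ℝ} (hw : w ≤ v) :
    Real.exp (-v - s - 2) ≤ C0 * Real.exp (-w) / (4 * Real.exp s) := by
  rw [le_div_iff₀ (by positivity)]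
  have h1 : Real.exp (-v - s - 2) * (4 * Real.exp s) = 4 * Real.exp (-v - 2) := by
    have : Real.exp (-v - s - 2) = Real.exp (-v - 2) * Real.exp (-s) := by
      rw [← Real.exp_add]; congr 1; ring
    rw [this]
    have h2 : Real.exp (-s) * Real.exp s = 1 := by rw [← Real.exp_add]; simp
    calc Real.exp (-v - 2) * Real.exp (-s) * (4 * Real.exp s)
        = 4 * Real.exp (-v - 2) * (Real.exp (-s) * Real.exp s) := by ring
      _ = _ := by rw [h2, mul_one]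
  rw [h1]
  have h3 : Real.exp (-v - 2) = Real.exp (-v) * Real.exp (-2) := by
    rw [← Real.exp_add]; congr 1
  have h4 : Real.exp (-2 : ℝ) ≤ 1 / 4 := by
    rw [Real.exp_neg, ← one_div]
    refine one_div_le_one_div_of_le (by norm_num) ?_
    have h4 : Real.exp 2 = Real.exp 1 * Real.exp 1 := by rw [← Real.exp_add]; norm_num
    have h5 := Real.exp_one_gt_d9
    rw [h4]; nlinarith
  have h5 : Real.exp (-v) ≤ Real.exp (-w) := Real.exp_le_exp.mpr (by linarith)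
  have h6 : 0 < Real.exp (-v) := Real.exp_pos _
  rw [h3]
  calc 4 * (Real.exp (-v) * Real.exp (-2)) ≤ 4 * (Real.exp (-v) * (1 / 4)) := by
        have := mul_le_mul_of_nonneg_left h4 h6.le
        linarith
    _ = 1 * Real.exp (-v) := by ring
    _ ≤ C0 * Real.exp (-w) := mul_le_mul hC0 h5 h6.le (by linarith)

lemma long_bound {C0 s w : ℝ} {R m : ℕ} (hC0 : 1 ≤ C0) (hs4 : 4 ≤ s)
    (hw : w ≤ s ^ m) (hR : s ^ (m + 2) ≤ R) :
    Real.exp (-((R : ℝ) * s / 2)) ≤ C0 * Real.exp (-w) / (4 * Real.exp s) := by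
  refine le_trans (Real.exp_le_exp.mpr ?_) (target_ge hC0 hw)
  have h1 : s ^ m * s ^ 3 / 2 ≤ (R : ℝ) * s / 2 := by
    have : s ^ m * s ^ 3 = s ^ (m + 2) * s := by ring
    rw [this]
    have := mul_le_mul_of_nonneg_right hR (show (0 : ℝ) ≤ s by linarith)
    linarith
  have h2 : 1 ≤ s ^ m := one_le_pow₀ (by linarith)
  have h3 : 64 ≤ s ^ 3 := by
    calc (64 : ℝ) = 4 ^ 3 := by norm_num
      _ ≤ s ^ 3 := pow_le_pow_left₀ (by norm_num) hs4 3
  have h4 : s ≤ s ^ 3 / 16 := by nlinarith [sq_nonneg (s - 4)]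
  nlinarith

lemma extra_bound {C0 s w uB H : ℝ} {R m A A1 A3 B : ℕ} (hC0 : 1 ≤ C0) (hs4 : 4 ≤ s)
    (hw : w ≤ s ^ m) (hm : m ≤ A3) (hR : (R : ℝ) ≤ s ^ A3 + 1) (hH0 : 0 ≤ H)
    (hH : H ≤ s ^ (A1 + 1)) (huB : 1 / s ^ A ≤ uB) (hB : A + A3 + A1 + 2 ≤ B)
    (hexp : 100 * s ^ B ≤ Real.exp s) :
    Real.exp (Real.exp s * -(uB / 4)) * ∑ r ∈ Finset.range R, H ^ r ≤
      C0 * Real.exp (-w) / (4 * Real.exp s) := by
  have hs1 : (1 : ℝ) ≤ s := by linarith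
  have hs0 : (0 : ℝ) < s := by linarith
  have hpow : ∀ {i j : ℕ}, i ≤ j → s ^ i ≤ s ^ j := fun h => pow_le_pow_right₀ hs1 h
  set h := s ^ (A1 + 1) with hh
  have hh1 : 1 ≤ h := one_le_pow₀ hs1
  have h1 : ∑ r ∈ Finset.range R, H ^ r ≤ R * h ^ R := by
    calc ∑ r ∈ Finset.range R, H ^ r ≤ ∑ _r ∈ Finset.range R, h ^ R := by
          refine Finset.sum_le_sum fun r hr => ?_
          exact (pow_le_pow_left₀ hH0 hH r).trans
            (pow_le_pow_right₀ hh1 (Finset.mem_range.mp hr).le)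
      _ = R * h ^ R := by rw [Finset.sum_const, Finset.card_range, nsmul_eq_mul]
  have h2 : (R : ℝ) ≤ Real.exp R := by linarith [Real.add_one_le_exp (R : ℝ)]
  have h3 : h ^ R ≤ Real.exp (R * h) := by
    rw [Real.exp_nat_mul]
    exact pow_le_pow_left₀ (by linarith) (by linarith [Real.add_one_le_exp h]) R
  have h4 : ∑ r ∈ Finset.range R, H ^ r ≤ Real.exp (s ^ (A3 + A1 + 2)) := by
    refine h1.trans ?_
    calc (R : ℝ) * h ^ R ≤ Real.exp R * Real.exp (R * h) :=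
          mul_le_mul h2 h3 (by positivity) (Real.exp_pos _).le
      _ = Real.exp (R * (1 + h)) := by rw [← Real.exp_add]; congr 1; ring
      _ ≤ _ := by
        refine Real.exp_le_exp.mpr ?_
        have h5 : (R : ℝ) * (1 + h) ≤ (s ^ A3 + 1) * (1 + h) :=
          mul_le_mul_of_nonneg_right hR (by positivity)
        have h6 : 1 ≤ s ^ A3 := one_le_pow₀ hs1
        have h7 : (s ^ A3 + 1) * (1 + h) ≤ (2 * s ^ A3) * (2 * h) :=
          mul_le_mul (by linarith) (by linarith) (by positivity) (by positivity)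
        have h8 : s ^ (A3 + A1 + 2) = s ^ A3 * h * s := by rw [hh]; ring
        have h9 : s ^ A3 * h * 4 ≤ s ^ A3 * h * s :=
          mul_le_mul_of_nonneg_left hs4 (by positivity)
        rw [h8]
        linarith
  have h5 : Real.exp (Real.exp s * -(uB / 4)) * ∑ r ∈ Finset.range R, H ^ r ≤
      Real.exp (Real.exp s * -(uB / 4) + s ^ (A3 + A1 + 2)) := by
    rw [Real.exp_add]
    exact mul_le_mul_of_nonneg_left h4 (Real.exp_pos _).le
  refine h5.trans (le_trans (Real.exp_le_exp.mpr ?_) (target_ge hC0 hw))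
  set L := Real.exp s with hL
  have h6 : L / (4 * s ^ A) ≤ L * (uB / 4) := by
    have h7 : L / (4 * s ^ A) = L * ((1 / s ^ A) / 4) := by field_simp
    rw [h7]
    exact mul_le_mul_of_nonneg_left (by linarith) (Real.exp_pos _).le
  have h7 : 4 * s ^ (A3 + A1 + 2) ≤ L / (4 * s ^ A) := by
    rw [le_div_iff₀ (by positivity)]
    have h8 : 4 * s ^ (A3 + A1 + 2) * (4 * s ^ A) = 16 * s ^ (A + A3 + A1 + 2) := by ring
    rw [h8]
    have h9 := hpow hB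
    have h10 : 0 < s ^ B := by positivity
    linarith
  have h8 : s ^ m ≤ s ^ (A3 + A1 + 2) := hpow (by omega)
  have h9 : s ≤ s ^ (A3 + A1 + 2) := by
    calc s = s ^ 1 := (pow_one s).symm
      _ ≤ _ := hpow (by omega)
  linarith

lemma main_step {C0 C2 s e H κ L x : ℝ} {r Cc A1 B : ℕ} (hr : 1 ≤ r) (hC0 : 1 ≤ C0)
    (hC2 : 1 ≤ C2) (hs4 : 4 ≤ s) (he : 0 ≤ e) (hx : 0 ≤ x) (hL : L = Real.exp s)
    (hκ : κ = s ^ Cc / L) (hH0 : 0 ≤ H) (hH : H ≤ s ^ (A1 + 1))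
    (hB : 2 * Cc + A1 + 1 ≤ B) (hexp : 100 * s ^ B ≤ Real.exp s) :
    κ ^ (r + 1) * x * C0 * e / (4 * C2) * H ^ r ≤ x * (C0 * e / (4 * L)) * (1 / 2) ^ r := by
  have hs1 : (1 : ℝ) ≤ s := by linarith
  have hs0 : (0 : ℝ) < s := by linarith
  have hL0 : 0 < L := by rw [hL]; exact Real.exp_pos _
  have hκ0 : 0 ≤ κ := by rw [hκ]; positivity
  have h1 : s ^ Cc * (κ * H) ≤ 1 / 2 := by
    have h2 : s ^ Cc * (κ * H) = s ^ (2 * Cc) * H / L := by rw [hκ]; ring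
    rw [h2, div_le_iff₀ hL0]
    have h3 : s ^ (2 * Cc) * H ≤ s ^ (2 * Cc) * s ^ (A1 + 1) :=
      mul_le_mul_of_nonneg_left hH (by positivity)
    have h4 : s ^ (2 * Cc) * s ^ (A1 + 1) ≤ s ^ B := by
      rw [← pow_add]; exact pow_le_pow_right₀ hs1 (by omega)
    rw [hL]
    have h5 : 0 < s ^ B := by positivity
    linarith
  have h2 : κ * H ≤ 1 / 2 := by
    have h3 : 1 ≤ s ^ Cc := one_le_pow₀ hs1
    have h4 : κ * H ≤ s ^ Cc * (κ * H) := le_mul_of_one_le_left (by positivity) h3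
    linarith
  obtain ⟨r, rfl⟩ : ∃ r', r = r' + 1 := ⟨r - 1, by omega⟩
  have h3 : s ^ Cc * (κ * H) ^ (r + 1) ≤ (1 / 2) ^ (r + 1) := by
    calc s ^ Cc * (κ * H) ^ (r + 1) = (s ^ Cc * (κ * H)) * (κ * H) ^ r := by ring
      _ ≤ (1 / 2) * (1 / 2) ^ r :=
        mul_le_mul h1 (pow_le_pow_left₀ (by positivity) h2 r) (by positivity) (by norm_num)
      _ = (1 / 2) ^ (r + 1) := by ring
  have h4 : κ ^ (r + 1 + 1) * x * C0 * e / (4 * C2) * H ^ (r + 1) =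
      x * (C0 * e / (4 * L)) * (s ^ Cc * (κ * H) ^ (r + 1)) * (1 / C2) := by
    have h5 : κ ^ (r + 1 + 1) = s ^ Cc / L * κ ^ (r + 1) := by rw [pow_succ, ← hκ]; ring
    rw [h5, mul_pow]
    field_simp
  rw [h4]
  have h6 : 1 / C2 ≤ 1 := by rw [div_le_one (by linarith)]; exact hC2
  have h7 : 0 ≤ x * (C0 * e / (4 * L)) := by positivity
  calc x * (C0 * e / (4 * L)) * (s ^ Cc * (κ * H) ^ (r + 1)) * (1 / C2)
      ≤ x * (C0 * e / (4 * L)) * (s ^ Cc * (κ * H) ^ (r + 1)) * 1 :=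
        mul_le_mul_of_nonneg_left h6 (by positivity)
    _ ≤ x * (C0 * e / (4 * L)) * (1 / 2) ^ (r + 1) := by
        rw [mul_one]
        exact mul_le_mul_of_nonneg_left h3 h7

/-- the one-step bound at a fixed scale -/
theorem core {x M1 R a A Ab A' A1 A3 Cz Cc : ℕ} {C0 C2 ρ ι C6 uB u1 Λ G1 Z δ z : ℝ}
    {G b : ℕ → ℝ} (hG : ChainG) (hSum : ChainSum) (hDec : ChainDec)
    (hcst : Cst a C0 ρ ι) (hC2 : 1 ≤ C2)
    (hAb : Ab = a * A + 3) (hA3 : A3 = a * A + 2) (hA' : A' = A1 + A3 + 1 + A + Ab)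
    (hGH : GH x a C0 ρ ι C6 G b Λ G1 uB u1 Z δ) (hx : 0 < (x : ℝ)) (hs4 : 4 ≤ ll x)
    (hsa : (a : ℝ) + 1 ≤ ll x) (hsa2 : 100 * (a : ℝ) * 4 ^ a ≤ ll x)
    (hlog : Real.log x = Real.exp (ll x))
    (hexp : 100 * (ll x) ^ (A' + 2 * Cc + 10) ≤ Real.exp (ll x))
    (hΛ : Λ ≤ (ll x) ^ A) (hZ : Z ≤ (ll x) ^ A) (huB : 1 / (ll x) ^ A ≤ uB)
    (hz : 1 ≤ z) (hzZ : z ≤ Z)
    (hM1 : M1 = ⌈Real.exp ((ll x) ^ A1)⌉₊) (hR : R = ⌈(ll x) ^ A3⌉₊)
    (hadm0 : Adm x Ab Cz M1 (NS x []) x (C2 / Real.log x))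
    (hadm1 : ∀ σ : List ℕ, σ ≠ [] → (σ.length : ℝ) ≤ (ll x) ^ Ab → (∀ m ∈ σ, 1 ≤ m) →
      (σ.prod : ℝ) ≤ (x : ℝ) ^ ((1 : ℝ) / 100) →
      Adm x Ab Cc M1 (NS x σ) (x / σ.prod) (((ll x) ^ Cc / Real.log x) ^ (σ.length + 1)))
    (hp0 : ∀ (N : Finset ℕ) (X D : ℝ) (S : Finset ℕ),
      TH x Ab A' Cz M1 N X D a C0 ρ ι uB b z δ → S ⊆ N →
      (∀ n ∈ S, (n + 1).Prime ∧ n + 1 ≤ x ∧ z - δ / 8 ≤ G (n + 1) ∧
        ∀ m q : ℕ, q.Prime → n = m * q → M1 < m) →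
      (S.card : ℝ) ≤ D * X * C0 * Real.exp (-(z ^ a)) / (4 * C2) + X * (x : ℝ) ^ (-(uB / 4)))
    (hp1 : ∀ (N : Finset ℕ) (X D : ℝ) (S : Finset ℕ),
      TH x Ab A' Cc M1 N X D a C0 ρ ι uB b z δ → S ⊆ N →
      (∀ n ∈ S, (n + 1).Prime ∧ n + 1 ≤ x ∧ z - δ / 8 ≤ G (n + 1) ∧
        ∀ m q : ℕ, q.Prime → n = m * q → M1 < m) →
      (S.card : ℝ) ≤ D * X * C0 * Real.exp (-(z ^ a)) / (4 * C2) + X * (x : ℝ) ^ (-(uB / 4)))
    (hl : ∀ S : Finset ℕ, (∀ p ∈ S, x / 2 < p ∧ p ≤ x ∧ ∃ σ ∈ chains M1 R, ∃ n,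
      p = up σ (n + 1) ∧ CP σ (n + 1)) →
      (S.card : ℝ) ≤ x * Real.exp (-((R : ℝ) * ll x / 2))) :
    (blk (fun q => z ≤ G q) x : ℝ) ≤ C0 * Real.exp (-(z ^ a)) * (x / Real.log x) := by
  classical
  set s := ll x with hs
  have hs1 : (1 : ℝ) ≤ s := by linarith
  have hs0 : (0 : ℝ) < s := by linarith
  have hpow : ∀ {i j : ℕ}, i ≤ j → s ^ i ≤ s ^ j := fun h => pow_le_pow_right₀ hs1 h
  have hpos : 0 < s ^ (A' + 2 * Cc + 10) := by positivity
  have hexp' : ∀ i : ℕ, i ≤ A' + 2 * Cc + 10 → 100 * s ^ i ≤ Real.exp s := fun i hi =>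
    le_trans (by have := hpow hi; linarith) hexp
  have hM1le : (M1 : ℝ) ≤ Real.exp (s ^ A1) + 1 := by
    rw [hM1]; exact (Nat.ceil_lt_add_one (Real.exp_pos _).le).le
  have hM1ge : Real.exp (s ^ A1) ≤ M1 := by rw [hM1]; exact Nat.le_ceil _
  have hM1pos : 1 ≤ M1 := by
    have h1 : (0 : ℝ) < M1 := lt_of_lt_of_le (Real.exp_pos _) hM1ge
    exact_mod_cast h1
  have hRle : (R : ℝ) ≤ s ^ A3 + 1 := by
    rw [hR]; exact (Nat.ceil_lt_add_one (by positivity)).le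
  have hRge : s ^ A3 ≤ R := by rw [hR]; exact Nat.le_ceil _
  set H := ∑ m ∈ Finset.Icc 1 M1, (1 : ℝ) / m with hH
  have hH0 : 0 ≤ H := Finset.sum_nonneg fun m _ => by positivity
  have hHle : H ≤ s ^ (A1 + 1) := harm_le hs4 hM1pos hM1le
  set e := Real.exp (-(z ^ a)) with he
  have he0 : 0 < e := Real.exp_pos _
  set L := Real.exp s with hL
  have hL0 : 0 < L := Real.exp_pos _
  have hC0 := hcst.hC0
  set y : ℝ := (x : ℝ) ^ (-(uB / 4)) with hy
  have hy' : y = Real.exp (Real.exp s * -(uB / 4)) := by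
    rw [hy, Real.rpow_def_of_pos hx, hlog]
  have hy0 : 0 < y := by rw [hy']; exact Real.exp_pos _
  have hza : z ^ a ≤ s ^ (a * A) := by
    calc z ^ a ≤ (s ^ A) ^ a := pow_le_pow_left₀ (by linarith) (hzZ.trans hZ) a
      _ = s ^ (a * A) := by rw [← pow_mul, mul_comm]
  -- the sets of bottoms
  let T : List ℕ → Finset ℕ := fun σ => (NS x σ).filter fun n =>
    z - δ / 8 ≤ G (n + 1) ∧ ∀ m q : ℕ, q.Prime → n = m * q → M1 < m
  let SL : Finset ℕ := (Finset.Ioc (x / 2) x).filter fun p =>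
    ∃ σ ∈ chains M1 R, ∃ n, p = up σ (n + 1) ∧ CP σ (n + 1)
  -- chains: products
  have hchain : ∀ r < R, ∀ σ ∈ chains M1 r, σ.length = r ∧ (∀ m ∈ σ, 1 ≤ m) ∧ 1 ≤ σ.prod ∧
      (σ.prod : ℝ) ≤ Real.exp (s ^ (A1 + A3 + 1)) := by
    intro r hr σ hσ
    obtain ⟨h1, h2, h3, h4⟩ := (hSum M1 r).2 σ hσ
    refine ⟨h1, fun m hm => (h2 m hm).1, h3, prod_le hSum hs4 hM1le ?_ hσ⟩
    have : (r : ℝ) ≤ R := by exact_mod_cast hr.le
    linarith
  have hprodx : ∀ r < R, ∀ σ ∈ chains M1 r, (σ.prod : ℝ) ≤ (x : ℝ) ^ ((1 : ℝ) / 100) := by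
    intro r hr σ hσ
    refine (hchain r hr σ hσ).2.2.2.trans ?_
    rw [Real.rpow_def_of_pos hx, hlog]
    refine Real.exp_le_exp.mpr ?_
    have := hexp' (A1 + A3 + 1) (by omega)
    linarith
  have hadm : ∀ r < R, ∀ σ ∈ chains M1 r, 1 ≤ r →
      Adm x Ab Cc M1 (NS x σ) (x / σ.prod) ((s ^ Cc / Real.log x) ^ (r + 1)) := by
    intro r hr σ hσ hr1
    obtain ⟨h1, h2, h3, h4⟩ := hchain r hr σ hσ
    have h5 := hadm1 σ (by rintro rfl; simp at h1; omega) (by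
      rw [h1]
      have h6 : (r : ℝ) ≤ R := by exact_mod_cast hr.le
      have h7 : s ^ Ab = s ^ A3 * s := by rw [hAb, hA3, ← pow_succ]
      have h8 : 1 ≤ s ^ A3 := one_le_pow₀ hs1
      rw [h7]
      nlinarith) h2 (hprodx r hr σ hσ)
    rwa [h1] at h5
  -- covering
  have hcov : blk (fun q => z ≤ G q) x ≤ (SL ∪ (Finset.range R).biUnion fun r =>
      (chains M1 r).biUnion fun σ => (T σ).image fun n => up σ (n + 1)).card := by
    unfold blk
    refine Finset.card_le_card fun p hp => ?_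
    rw [Finset.mem_filter, Finset.mem_Ioc] at hp
    obtain ⟨⟨hp1, hp2⟩, hpp, hpG⟩ := hp
    obtain ⟨r, hrR, σ, hσ, n, hpn, hCP, hor⟩ := hDec M1 R p hpp
    rw [Finset.mem_union]
    by_cases hr : r = R
    · left
      subst hr
      rw [Finset.mem_filter, Finset.mem_Ioc]
      exact ⟨⟨hp1, hp2⟩, σ, hσ, n, hpn, hCP⟩
    · right
      have hr' : r < R := lt_of_le_of_ne hrR hr
      obtain ⟨h1, h2, h3, h4⟩ := hchain r hr' σ hσ
      rw [Finset.mem_biUnion]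
      refine ⟨r, Finset.mem_range.mpr hr', ?_⟩
      rw [Finset.mem_biUnion]
      refine ⟨σ, hσ, ?_⟩
      rw [Finset.mem_image]
      refine ⟨n, ?_, hpn.symm⟩
      have hn1 : n + 1 ≤ x := (le_up σ (n + 1) h2).trans (hpn ▸ hp2)
      have hnp : (n + 1).Prime := cp_prime σ (n + 1) hCP
      have hNS : n ∈ NS x σ := by
        simp only [NS, Finset.mem_filter, Finset.mem_Icc]
        refine ⟨⟨?_, by omega⟩, hCP, hpn ▸ hp1, hpn ▸ hp2⟩
        have := hnp.two_le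
        omega
      have hrng : (x : ℝ) / σ.prod / 4 < n := by
        by_cases hr1 : 1 ≤ r
        · exact ((hadm r hr' σ hσ hr1).rng n hNS).1
        · have hr0 : r = 0 := by omega
          subst hr0
          have hσ0 : σ = [] := List.length_eq_zero_iff.mp h1
          subst hσ0
          have := (hadm0.rng n hNS).1
          simpa using this
      have hb := G_bottom (k := a * A + 1) (A := A) (B1 := A1 + A3 + 1) hG hGH.avg hGH.le hGH.hΛ
        hΛ h2 h3 h4 hs4 hx hlog (delta_ge hcst.ha hs4 hsa2 hGH.hZ hZ hGH.hδ)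
        (hexp' _ (by omega)) hrng hCP hz (hpn ▸ hpG)
      rw [Finset.mem_filter]
      exact ⟨hNS, hb, hor.resolve_left hr⟩
  -- the hypotheses of the type lemmas
  have hTprop : ∀ r < R, ∀ σ ∈ chains M1 r, ∀ n ∈ T σ, (n + 1).Prime ∧ n + 1 ≤ x ∧
      z - δ / 8 ≤ G (n + 1) ∧ ∀ m q : ℕ, q.Prime → n = m * q → M1 < m := by
    intro r hr σ hσ n hn
    obtain ⟨h1, h2, h3, h4⟩ := hchain r hr σ hσ
    rw [Finset.mem_filter] at hn
    obtain ⟨hn1, hn2, hn3⟩ := hn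
    simp only [NS, Finset.mem_filter, Finset.mem_Icc] at hn1
    exact ⟨cp_prime σ _ hn1.2.1, (le_up σ (n + 1) h2).trans hn1.2.2.2, hn2, hn3⟩
  -- the bound for each length
  have hlen : ∀ r < R, ∑ σ ∈ chains M1 r, ((T σ).card : ℝ) ≤
      x * (C0 * e / (4 * L)) * (1 / 2) ^ r + x * y * H ^ r := by
    intro r hr
    by_cases hr1 : 1 ≤ r
    · have hD0 : 0 ≤ (s ^ Cc / Real.log x) ^ (r + 1) := by rw [hlog]; positivity
      have h1 : ∀ σ ∈ chains M1 r, ((T σ).card : ℝ) ≤ (1 / (σ.prod : ℕ)) *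
          ((s ^ Cc / L) ^ (r + 1) * x * C0 * e / (4 * C2) + x * y) := by
        intro σ hσ
        obtain ⟨h1, h2, h3, h4⟩ := hchain r hr σ hσ
        have hc0 : (0 : ℝ) < σ.prod := by exact_mod_cast h3
        have hc1 : (1 : ℝ) ≤ σ.prod := by exact_mod_cast h3
        have hTH : TH x Ab A' Cc M1 (NS x σ) (x / σ.prod) ((s ^ Cc / Real.log x) ^ (r + 1)) a C0
            ρ ι uB b z δ := by
          refine th_of (A := A) (A1 := A1) hcst hAb (by omega) (by omega) (by omega) hGH hx hs4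
            hsa hsa2 hlog (hexp' _ (by omega)) hZ huB hz hzZ hM1 (hadm r hr σ hσ hr1) hD0 ?_ ?_
          · rw [div_le_iff₀ hc0]
            exact le_mul_of_one_le_right hx.le hc1
          · rw [le_div_iff₀ hc0, mul_assoc]
            have h5 : Real.exp (-(ll x) ^ A') * σ.prod ≤ 1 := by
              have h6 : (σ.prod : ℝ) ≤ Real.exp (s ^ A') :=
                h4.trans (Real.exp_le_exp.mpr (hpow (by omega)))
              calc Real.exp (-(ll x) ^ A') * σ.prod ≤ Real.exp (-(s ^ A')) * Real.exp (s ^ A') :=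
                    mul_le_mul_of_nonneg_left h6 (Real.exp_pos _).le
                _ = 1 := by rw [← Real.exp_add]; simp
            calc (x : ℝ) * (Real.exp (-(ll x) ^ A') * σ.prod) ≤ x * 1 :=
                  mul_le_mul_of_nonneg_left h5 hx.le
              _ = x := mul_one _
        have h5 := hp1 _ _ _ (T σ) hTH (Finset.filter_subset _ _) (hTprop r hr σ hσ)
        refine h5.trans (le_of_eq ?_)
        rw [hlog]
        field_simp
      calc ∑ σ ∈ chains M1 r, ((T σ).card : ℝ) ≤ ∑ σ ∈ chains M1 r, (1 / (σ.prod : ℕ)) *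
            ((s ^ Cc / L) ^ (r + 1) * x * C0 * e / (4 * C2) + x * y) := Finset.sum_le_sum h1
        _ = H ^ r * ((s ^ Cc / L) ^ (r + 1) * x * C0 * e / (4 * C2) + x * y) := by
            rw [← Finset.sum_mul, (hSum M1 r).1]
        _ = (s ^ Cc / L) ^ (r + 1) * x * C0 * e / (4 * C2) * H ^ r + x * y * H ^ r := by ring
        _ ≤ _ := by
            have := main_step (Cc := Cc) (A1 := A1) (B := A' + 2 * Cc + 10) hr1 hC0 hC2 hs4 he0.le hx.le hL rfl hH0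
              hHle (by omega) hexp
            linarith
    · have hr0 : r = 0 := by omega
      subst hr0
      have hmem : ([] : List ℕ) ∈ chains M1 0 := by simp [chains]
      have hTH : TH x Ab A' Cz M1 (NS x []) x (C2 / Real.log x) a C0 ρ ι uB b z δ := by
        refine th_of (A := A) (A1 := A1) hcst hAb (by omega) (by omega) (by omega) hGH hx hs4
          hsa hsa2 hlog (hexp' _ (by omega)) hZ huB hz hzZ hM1 hadm0 (by rw [hlog]; positivity)
          le_rfl ?_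
        have h6 : Real.exp (-(ll x) ^ A') ≤ 1 := by
          rw [Real.exp_le_one_iff]
          have : 0 ≤ (ll x) ^ A' := by positivity
          linarith
        exact mul_le_of_le_one_right hx.le h6
      have h5 := hp0 _ _ _ (T []) hTH (Finset.filter_subset _ _) (hTprop 0 hr [] hmem)
      have h6 : ∑ σ ∈ chains M1 0, ((T σ).card : ℝ) = ((T []).card : ℝ) := by
        simp [chains]
      rw [h6]
      refine h5.trans (le_of_eq ?_)
      rw [hlog, pow_zero, pow_zero]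
      have hC20 : C2 ≠ 0 := by positivity
      field_simp
  -- assembling
  have hfin : (blk (fun q => z ≤ G q) x : ℝ) ≤ (SL.card : ℝ) +
      ∑ r ∈ Finset.range R, ∑ σ ∈ chains M1 r, ((T σ).card : ℝ) := by
    have h1 : blk (fun q => z ≤ G q) x ≤ SL.card +
        ∑ r ∈ Finset.range R, ∑ σ ∈ chains M1 r, (T σ).card := by
      refine hcov.trans ((Finset.card_union_le _ _).trans (Nat.add_le_add_left ?_ _))
      refine Finset.card_biUnion_le.trans (Finset.sum_le_sum fun r _ => ?_)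
      refine Finset.card_biUnion_le.trans (Finset.sum_le_sum fun σ _ => ?_)
      exact Finset.card_image_le
    exact_mod_cast h1
  have hSL : (SL.card : ℝ) ≤ x * (C0 * e / (4 * L)) := by
    have h1 := hl SL (fun p hp => by
      rw [Finset.mem_filter, Finset.mem_Ioc] at hp
      exact ⟨hp.1.1, hp.1.2, hp.2⟩)
    refine h1.trans (mul_le_mul_of_nonneg_left ?_ hx.le)
    exact long_bound (m := a * A) hC0 hs4 hza (by rw [← hA3]; exact hRge)
  have hext : y * ∑ r ∈ Finset.range R, H ^ r ≤ C0 * e / (4 * L) := by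
    rw [hy']
    exact extra_bound (m := a * A) (A := A) (A1 := A1) (A3 := A3) (B := A' + 2 * Cc + 10)
      hC0 hs4 hza (by omega) hRle hH0 hHle huB (by omega) hexp
  have hsum : ∑ r ∈ Finset.range R, ∑ σ ∈ chains M1 r, ((T σ).card : ℝ) ≤
      x * (C0 * e / (4 * L)) * 2 + x * (C0 * e / (4 * L)) := by
    calc ∑ r ∈ Finset.range R, ∑ σ ∈ chains M1 r, ((T σ).card : ℝ) ≤
        ∑ r ∈ Finset.range R, (x * (C0 * e / (4 * L)) * (1 / 2) ^ r + x * y * H ^ r) :=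
          Finset.sum_le_sum fun r hr => hlen r (Finset.mem_range.mp hr)
      _ = x * (C0 * e / (4 * L)) * ∑ r ∈ Finset.range R, (1 / 2 : ℝ) ^ r +
          x * (y * ∑ r ∈ Finset.range R, H ^ r) := by
          rw [Finset.sum_add_distrib, ← Finset.mul_sum, ← Finset.mul_sum]
          ring
      _ ≤ _ := by
          have h1 := sum_geometric_two_le R
          have h2 : 0 ≤ (x : ℝ) * (C0 * e / (4 * L)) := by positivity
          exact add_le_add (mul_le_mul_of_nonneg_left h1 h2)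
            (mul_le_mul_of_nonneg_left hext hx.le)
  have hgoal : C0 * e * (x / Real.log x) = x * (C0 * e / (4 * L)) * 4 := by
    rw [hlog]
    field_simp
  rw [hgoal]
  linarith

/-- TOT-O4 -/
theorem oS (hPer : PerAdm) (hZero : AdmZero) (hCh : AdmChain) (hDec : ChainDec) (hG : ChainG)
    (hSum : ChainSum) (_hAlg : ChainAlg) (hLong : LongChain) (hCheb : Cheb) : OS := by
  obtain ⟨C1, hC1, hcheb⟩ := hCheb
  obtain ⟨C2, hC2, hzero⟩ := hZero
  obtain ⟨a, C0, ρ, ι, C6, hcst, hC6, hC1C0, hper⟩ := hPer C1 C2 hC1 hC2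
  refine ⟨a, C0, ρ, ι, C6, hcst, hC6, ?_, ?_⟩
  · intro y hy
    have h1 : blk (fun _ => True) y ≤ ((Finset.Icc 1 y).filter Nat.Prime).card := by
      unfold blk
      refine Finset.card_le_card fun q hq => ?_
      have hq1 : (y / 2 < q ∧ q ≤ y) ∧ q.Prime := by simpa using hq
      rw [Finset.mem_filter, Finset.mem_Icc]
      exact ⟨⟨hq1.2.one_lt.le, hq1.1.2⟩, hq1.2⟩
    have hy1 : (1 : ℝ) ≤ y := by exact_mod_cast (by omega : 1 ≤ y)
    have h2 : (0 : ℝ) ≤ y / Real.log y := div_nonneg (by positivity) (Real.log_nonneg hy1)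
    calc (blk (fun _ => True) y : ℝ) ≤ ((Finset.Icc 1 y).filter Nat.Prime).card := by
          exact_mod_cast h1
      _ ≤ C1 * (y / Real.log y) := hcheb y hy
      _ ≤ C0 * Real.exp (-1) * (y / Real.log y) := mul_le_mul_of_nonneg_right hC1C0 h2
  · intro A
    obtain ⟨Ab, hAb⟩ : ∃ Ab : ℕ, Ab = a * A + 3 := ⟨_, rfl⟩
    obtain ⟨A3, hA3⟩ : ∃ A3 : ℕ, A3 = a * A + 2 := ⟨_, rfl⟩
    obtain ⟨Cz, A1z, Xz, hz0⟩ := hzero Ab
    obtain ⟨Cc, A1c, Xc, hc0⟩ := hCh Ab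
    obtain ⟨A1, hA1⟩ : ∃ A1 : ℕ, A1 = max A1z A1c := ⟨_, rfl⟩
    obtain ⟨A', hA'⟩ : ∃ A' : ℕ, A' = A1 + A3 + 1 + A + Ab := ⟨_, rfl⟩
    obtain ⟨Xp0, hp0⟩ := hper Ab A' Cz
    obtain ⟨Xp1, hp1⟩ := hper Ab A' Cc
    obtain ⟨Xl, hl⟩ := hLong Ab A1
    obtain ⟨s0, hs0⟩ := exp_ge_pow 100 (A' + 2 * Cc + 10)
    obtain ⟨Xs, hXs⟩ := exists_ll_ge (max (max s0 4) (max ((a : ℝ) + 1) (100 * (a : ℝ) * 4 ^ a)))
    refine ⟨max (max Xz Xc) (max (max Xp0 Xp1) (max Xl (max Xs 3))), ?_⟩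
    intro x G b Λ G1 uB u1 Z δ hx hGH hΛ hZ huB z hz hzZ
    have hxz : Xz ≤ x := le_trans (by simp) hx
    have hxc : Xc ≤ x := le_trans (by simp) hx
    have hxp0 : Xp0 ≤ x := le_trans (by simp) hx
    have hxp1 : Xp1 ≤ x := le_trans (by simp) hx
    have hxl : Xl ≤ x := le_trans (by simp) hx
    have hxs : Xs ≤ x := le_trans (by simp) hx
    have hx3 : 3 ≤ x := le_trans (by simp) hx
    have hs := hXs x hxs
    have hss0 : s0 ≤ ll x := le_trans (by simp) hs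
    have hs4 : (4 : ℝ) ≤ ll x := le_trans (by simp) hs
    have hsa : (a : ℝ) + 1 ≤ ll x := le_trans (by simp) hs
    have hsa2 : 100 * (a : ℝ) * 4 ^ a ≤ ll x := le_trans (by simp) hs
    have hxpos : 0 < (x : ℝ) := by exact_mod_cast (by omega : 0 < x)
    have hlogpos : 0 < Real.log x :=
      Real.log_pos (by exact_mod_cast (by omega : 1 < x))
    have hlog : Real.log x = Real.exp (ll x) := (Real.exp_log hlogpos).symm
    have hs1 : (1 : ℝ) ≤ ll x := by linarith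
    have hpow : ∀ {i j : ℕ}, i ≤ j → (ll x) ^ i ≤ (ll x) ^ j := fun h => pow_le_pow_right₀ hs1 h
    obtain ⟨M1, hM1⟩ : ∃ M1 : ℕ, M1 = ⌈Real.exp ((ll x) ^ A1)⌉₊ := ⟨_, rfl⟩
    obtain ⟨R, hR⟩ : ∃ R : ℕ, R = ⌈(ll x) ^ A3⌉₊ := ⟨_, rfl⟩
    have hM1ge : Real.exp ((ll x) ^ A1) ≤ M1 := by rw [hM1]; exact Nat.le_ceil _
    have hM1z : Real.exp ((ll x) ^ A1z) ≤ M1 :=
      (Real.exp_le_exp.mpr (hpow (by rw [hA1]; exact le_max_left _ _))).trans hM1ge
    have hM1c : Real.exp ((ll x) ^ A1c) ≤ M1 :=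
      (Real.exp_le_exp.mpr (hpow (by rw [hA1]; exact le_max_right _ _))).trans hM1ge
    have hM1le : (M1 : ℝ) ≤ Real.exp ((ll x) ^ A1) + 1 := by
      rw [hM1]; exact (Nat.ceil_lt_add_one (Real.exp_pos _).le).le
    have hR0 : (1 : ℝ) ≤ (ll x) ^ A3 := one_le_pow₀ hs1
    have hRge : (ll x) ^ A3 ≤ R := by rw [hR]; exact Nat.le_ceil _
    have hR1 : 1 ≤ R := by
      have : (1 : ℝ) ≤ R := hR0.trans hRge
      exact_mod_cast this
    have hRle : (R : ℝ) ≤ (ll x) ^ Ab := by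
      have h1 : (R : ℝ) ≤ (ll x) ^ A3 + 1 := by
        rw [hR]; exact (Nat.ceil_lt_add_one (by positivity)).le
      have h7 : (ll x) ^ Ab = (ll x) ^ A3 * ll x := by rw [hAb, hA3, ← pow_succ]
      rw [h7]
      nlinarith
    refine core (M1 := M1) (R := R) (A := A) (Ab := Ab) (A' := A') (A1 := A1) (A3 := A3)
      (Cz := Cz) (Cc := Cc) hG hSum hDec hcst hC2 hAb hA3 hA' hGH hxpos hs4 hsa hsa2 hlog
      (hs0 _ hss0) hΛ hZ huB hz hzZ hM1 hR (hz0 x M1 hxz hM1z) ?_ ?_ ?_ ?_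
    · intro σ h1 h2 h3 h4
      exact hc0 x M1 σ hxc hM1c h1 h2 h3 h4
    · intro N X D S h1 h2 h3
      exact hp0 x M1 N X D uB u1 G b Λ G1 Z δ z S hxp0 hGH hzZ h1 h2 h3
    · intro N X D S h1 h2 h3
      exact hp1 x M1 N X D uB u1 G b Λ G1 Z δ z S hxp1 hGH hzZ h1 h2 h3
    · intro S h1
      exact hl x M1 R S hxl hR1 hRle hM1le h1

end Pool.Agent.Helper39.TOT
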